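import Mathlib
import Pool.Agent.H20.Edm.Minor

set_option autoImplicit false

namespace Pool.Agent.H21.Conn

open Matrix MvPolynomial

section rankfact

variable {K : Type*} [Field K] {m k : Type*} [Fintype m] [Fintype k]

/-- if a minor of size `ρ = rank M` is nonzero then `M = M_g E⁻¹ M_f` -/
lemma entry_of_rank (M : Matrix m k K) {ρ : ℕ} (hρ : M.rank = ρ) (f : Fin ρ → m) (g : Fin ρ → k)
    (h : (M.submatrix f g).det ≠ 0) (i : m) (j : k) :
    M i j = ∑ a, ∑ b, M i (g a) * (M.submatrix f g)⁻¹ a b * M (f b) j := by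
  classical
  set E := M.submatrix f g with hE
  have hu : IsUnit E.det := isUnit_iff_ne_zero.2 h
  have : Invertible E := E.invertibleOfIsUnitDet hu
  let B : Matrix (Fin ρ ⊕ Fin 1) (Fin ρ ⊕ Fin 1) K :=
    fromBlocks E (Matrix.of fun a _ => M (f a) j) (Matrix.of fun _ b => M i (g b))
      (Matrix.of fun _ _ => M i j)
  have hB : B.det = E.det * (M i j - ∑ a, ∑ b, M i (g a) * E⁻¹ a b * M (f b) j) := by
    rw [Matrix.det_fromBlocks₁₁]
    congr 1
    rw [Matrix.det_fin_one, Matrix.sub_apply, Matrix.of_apply, Matrix.mul_apply]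
    congr 1
    simp only [Matrix.mul_apply, Matrix.of_apply, Finset.sum_mul, Matrix.invOf_eq_nonsing_inv]
    rw [Finset.sum_comm]
  have hB0 : B.det = 0 := by
    by_contra hne
    let e : Fin (ρ + 1) ≃ Fin ρ ⊕ Fin 1 := finSumFinEquiv.symm
    let f' : Fin (ρ + 1) → m := fun x => Sum.elim f (fun _ => i) (e x)
    let g' : Fin (ρ + 1) → k := fun x => Sum.elim g (fun _ => j) (e x)
    have h1 : M.submatrix f' g' = B.submatrix e e := by
      ext x y
      simp only [Matrix.submatrix_apply, f', g']
      rcases e x with a | a <;> rcases e y with b | b <;> simp [B, hE]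
    have h2 : (M.submatrix f' g').det ≠ 0 := by
      rw [h1, Matrix.det_submatrix_equiv_self]
      exact hne
    have h3 := Pool.Agent.H20.Edm.le_rank_of_minor M f' g' h2
    omega
  rw [hB0] at hB
  rcases mul_eq_zero.1 hB.symm with h1 | h1
  · exact absurd h1 h
  · exact sub_eq_zero.1 h1

end rankfact

variable {F σ : Type*} [Field F] {m k : Type*} [Fintype m] [Fintype k]

lemma map_derivation_mul {R : Type*} [CommRing R] [Algebra F R] (D : Derivation F R R)
    {l p q : Type*} [Fintype p] (X : Matrix l p R) (Y : Matrix p q R) :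
    (X * Y).map D = X.map D * Y + X * Y.map D := by
  ext i j
  simp only [Matrix.map_apply, Matrix.mul_apply, Matrix.add_apply, map_sum,
    Derivation.leibniz, smul_eq_mul, Finset.sum_add_distrib]
  rw [add_comm]
  congr 1
  exact Finset.sum_congr rfl fun x _ => mul_comm _ _

/-- the polynomial identity `δ A = C adj(E) R` -/
lemma det_smul_eq (A : Matrix m k (MvPolynomial σ F)) {ρ : ℕ}
    (hρ : (A.map (algebraMap (MvPolynomial σ F) (FractionRing (MvPolynomial σ F)))).rank = ρ)
    (f : Fin ρ → m) (g : Fin ρ → k) (h : (A.submatrix f g).det ≠ 0) :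
    (A.submatrix f g).det • A =
      A.submatrix id g * (A.submatrix f g).adjugate * A.submatrix f id := by
  classical
  have hinj := IsFractionRing.injective (MvPolynomial σ F) (FractionRing (MvPolynomial σ F))
  set φ := algebraMap (MvPolynomial σ F) (FractionRing (MvPolynomial σ F)) with hφ
  have hdet : ((A.map φ).submatrix f g).det = φ (A.submatrix f g).det := by
    rw [RingHom.map_det]; rfl
  have hne : ((A.map φ).submatrix f g).det ≠ 0 := by
    rw [hdet]
    intro h0
    exact h (hinj (by rw [h0, map_zero]))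
  ext1 i j
  apply hinj
  rw [Matrix.smul_apply, smul_eq_mul, map_mul]
  have h1 := entry_of_rank (A.map φ) hρ f g hne i j
  rw [Matrix.map_apply] at h1
  rw [h1, Finset.mul_sum]
  rw [Matrix.mul_apply]
  simp only [Matrix.mul_apply, map_sum, map_mul, Finset.sum_mul]
  rw [Finset.sum_comm]
  refine Finset.sum_congr rfl fun b _ => ?_
  rw [Finset.mul_sum]
  refine Finset.sum_congr rfl fun a _ => ?_
  have h2 : ((A.map φ).submatrix f g)⁻¹ b a =
      (φ (A.submatrix f g).det)⁻¹ * φ ((A.submatrix f g).adjugate b a) := by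
    rw [Matrix.inv_def, hdet]
    have h3 : ((A.map φ).submatrix f g).adjugate = ((A.submatrix f g).adjugate).map φ := by
      have := (RingHom.map_adjugate φ (A.submatrix f g))
      rw [RingHom.mapMatrix_apply, RingHom.mapMatrix_apply] at this
      rw [this]
      rfl
    rw [h3]
    simp [Ring.inverse_eq_inv']
  rw [h2]
  have h4 : φ (A.submatrix f g).det ≠ 0 := by rw [← hdet]; exact hne
  simp only [Matrix.map_apply, Matrix.submatrix_apply, id]
  field_simp

end Pool.Agent.H21.Conn
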