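import Mathlib

set_option autoImplicit false

namespace Pool.Agent.H21.Conn

open Matrix Finset

variable {R : Type*} [CommRing R]

/-- the ideal generated by the `s × s` minors -/
def minorIdeal {m k : Type*} (s : ℕ) (A : Matrix m k R) : Ideal R :=
  Ideal.span {x | ∃ (f : Fin s → m) (g : Fin s → k), (A.submatrix f g).det = x}

lemma det_submatrix_mem {m k : Type*} {s : ℕ} (A : Matrix m k R) (f : Fin s → m) (g : Fin s → k) :
    (A.submatrix f g).det ∈ minorIdeal s A := Ideal.subset_span ⟨f, g, rfl⟩

lemma sum_det_updateRow {s : ℕ} (M N : Matrix (Fin s) (Fin s) R) :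
    ∑ i, (M.updateRow i (N i)).det =
      ∑ τ : Equiv.Perm (Fin s), Equiv.Perm.sign τ •
        ∑ i, (∏ j ∈ Finset.univ.erase i, M (τ j) j) * N (τ i) i := by
  classical
  simp only [Matrix.det_apply]
  rw [Finset.sum_comm]
  refine Finset.sum_congr rfl fun τ _ => ?_
  rw [← Finset.smul_sum]
  congr 1
  rw [← Equiv.sum_comp τ (fun i => ∏ j, M.updateRow i (N i) (τ j) j)]
  refine Finset.sum_congr rfl fun i _ => ?_
  rw [← Finset.mul_prod_erase Finset.univ _ (Finset.mem_univ i), mul_comm]
  congr 1
  · refine Finset.prod_congr rfl fun j hj => ?_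
    rw [Matrix.updateRow_ne]
    intro h
    exact Finset.ne_of_mem_erase hj (τ.injective h)
  · rw [Matrix.updateRow_self]

lemma sum_det_updateCol {s : ℕ} (M N : Matrix (Fin s) (Fin s) R) :
    ∑ j, (M.updateCol j (fun i => N i j)).det =
      ∑ τ : Equiv.Perm (Fin s), Equiv.Perm.sign τ •
        ∑ i, (∏ j ∈ Finset.univ.erase i, M (τ j) j) * N (τ i) i := by
  classical
  simp only [Matrix.det_apply]
  rw [Finset.sum_comm]
  refine Finset.sum_congr rfl fun τ _ => ?_
  rw [← Finset.smul_sum]
  congr 1
  refine Finset.sum_congr rfl fun i _ => ?_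
  rw [← Finset.mul_prod_erase Finset.univ _ (Finset.mem_univ i), mul_comm]
  congr 1
  · refine Finset.prod_congr rfl fun j hj => ?_
    rw [Matrix.updateCol_ne (Finset.ne_of_mem_erase hj)]
  · rw [Matrix.updateCol_self]

lemma sum_row_eq_sum_col {s : ℕ} (M N : Matrix (Fin s) (Fin s) R) :
    ∑ i, (M.updateRow i (N i)).det = ∑ j, (M.updateCol j (fun i => N i j)).det := by
  rw [sum_det_updateRow, sum_det_updateCol]

section deriv

variable {F : Type*} [CommRing F] [Algebra F R] (D : Derivation F R R)

lemma derivation_prod {ι : Type*} [DecidableEq ι] (s : Finset ι) (f : ι → R) :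
    D (∏ i ∈ s, f i) = ∑ i ∈ s, (∏ j ∈ s.erase i, f j) * D (f i) := by
  induction s using Finset.induction_on with
  | empty => simp
  | insert a s ha ih =>
    rw [Finset.prod_insert ha, Derivation.leibniz, ih, Finset.sum_insert ha,
      Finset.erase_insert ha, smul_eq_mul, smul_eq_mul, add_comm, Finset.mul_sum]
    congr 1
    refine Finset.sum_congr rfl fun i hi => ?_
    have hai : a ≠ i := fun h => ha (h ▸ hi)
    rw [Finset.erase_insert_of_ne hai, Finset.prod_insert (fun h => ha (Finset.mem_of_mem_erase h)),
      mul_assoc]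

/-- Leibniz rule for determinants, row form -/
lemma derivation_det {s : ℕ} (M : Matrix (Fin s) (Fin s) R) :
    D M.det = ∑ i, (M.updateRow i (fun j => D (M i j))).det := by
  classical
  have h := sum_det_updateRow M (Matrix.of fun i j => D (M i j))
  have h' : ∑ i, (M.updateRow i (fun j => D (M i j))).det =
    ∑ i, (M.updateRow i ((Matrix.of fun i j => D (M i j)) i)).det := rfl
  rw [h', h, Matrix.det_apply, map_sum]
  refine Finset.sum_congr rfl fun τ _ => ?_
  rw [Units.smul_def, map_zsmul, Units.smul_def, derivation_prod]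
  rfl

end deriv

/-- row operations stay in the minor ideal -/
lemma row_mem {m k : Type*} [Fintype m] {s : ℕ} (A : Matrix m k R) (P : Matrix m m R)
    (f : Fin s → m) (g : Fin s → k) (i : Fin s) :
    ((A.submatrix f g).updateRow i (fun j => (P * A) (f i) (g j))).det ∈ minorIdeal s A := by
  classical
  have h1 : (fun j => (P * A) (f i) (g j)) = ∑ p : m, P (f i) p • (fun j => A p (g j)) := by
    ext j
    simp [Matrix.mul_apply, Finset.sum_apply]
  rw [h1]
  have h2 : ∀ (t : Finset m), ((A.submatrix f g).updateRow i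
      (∑ p ∈ t, P (f i) p • (fun j => A p (g j)))).det ∈ minorIdeal s A := by
    intro t
    induction t using Finset.induction_on with
    | empty =>
      rw [Finset.sum_empty]
      rw [Matrix.det_eq_zero_of_row_eq_zero i]
      · exact Ideal.zero_mem _
      · intro j; simp
    | insert p t hp ih =>
      rw [Finset.sum_insert hp, Matrix.det_updateRow_add, Matrix.det_updateRow_smul]
      refine Ideal.add_mem _ (Ideal.mul_mem_left _ _ ?_) ih
      have h3 : (A.submatrix f g).updateRow i (fun j => A p (g j)) =
          A.submatrix (Function.update f i p) g := by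
        ext a b
        by_cases hab : a = i
        · subst hab; simp
        · simp [Matrix.updateRow_ne hab, Function.update_of_ne hab]
      rw [h3]
      exact det_submatrix_mem _ _ _
  exact h2 Finset.univ

lemma minorIdeal_transpose {m k : Type*} {s : ℕ} (A : Matrix m k R) :
    minorIdeal s Aᵀ = minorIdeal s A := by
  unfold minorIdeal
  congr 1
  ext x
  constructor
  · rintro ⟨f, g, rfl⟩
    exact ⟨g, f, by rw [← Matrix.det_transpose]; rfl⟩
  · rintro ⟨f, g, rfl⟩
    exact ⟨g, f, by rw [← Matrix.det_transpose]; rfl⟩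

lemma col_mem {m k : Type*} [Fintype k] {s : ℕ} (A : Matrix m k R) (Q : Matrix k k R)
    (f : Fin s → m) (g : Fin s → k) (j : Fin s) :
    ((A.submatrix f g).updateCol j (fun i => (A * Q) (f i) (g j))).det ∈ minorIdeal s A := by
  have h := row_mem Aᵀ Qᵀ g f j
  rw [minorIdeal_transpose] at h
  rw [← Matrix.det_transpose] at h
  have h2 : ((Aᵀ.submatrix g f).updateRow j (fun i => (Qᵀ * Aᵀ) (g j) (f i)))ᵀ =
      (A.submatrix f g).updateCol j (fun i => (A * Q) (f i) (g j)) := by
    rw [← Matrix.transpose_mul]
    ext a b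
    by_cases hb : b = j
    · subst hb; simp
    · simp [Matrix.updateRow_ne hb, Matrix.updateCol_ne hb]
  rwa [h2] at h

/-- the minor ideal is stable under infinitesimal equivalences -/
theorem derivation_minorIdeal {F : Type*} [CommRing F] [Algebra F R] (D : Derivation F R R)
    {m k : Type*} [Fintype m] [Fintype k] {s : ℕ} (A : Matrix m k R) (P : Matrix m m R)
    (Q : Matrix k k R) (h : ∀ i j, D (A i j) = (P * A + A * Q) i j) {x : R}
    (hx : x ∈ minorIdeal s A) : D x ∈ minorIdeal s A := by
  have hx' := hx
  unfold minorIdeal at hx'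
  induction hx' using Submodule.span_induction with
  | zero => simp
  | add x y hx0 hy0 hx1 hy1 => rw [map_add]; exact Ideal.add_mem _ (hx1 hx0) (hy1 hy0)
  | smul a x hx0 hx1 =>
    rw [smul_eq_mul, Derivation.leibniz, smul_eq_mul, smul_eq_mul]
    exact Ideal.add_mem _ (Ideal.mul_mem_left _ _ (hx1 hx0)) (Ideal.mul_mem_right _ _ hx0)
  | mem x hx0 =>
    obtain ⟨f, g, rfl⟩ := hx0
    rw [derivation_det]
    have h1 : ∀ i : Fin s, ((A.submatrix f g).updateRow i (fun j => D ((A.submatrix f g) i j))).det =
        ((A.submatrix f g).updateRow i (fun j => (P * A) (f i) (g j))).det +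
        ((A.submatrix f g).updateRow i ((A * Q).submatrix f g i)).det := by
      intro i
      rw [← Matrix.det_updateRow_add]
      congr 2
      ext j
      simp [h]
    simp only [h1, Finset.sum_add_distrib]
    refine Ideal.add_mem _ (Ideal.sum_mem _ fun i _ => row_mem A P f g i) ?_
    rw [sum_row_eq_sum_col]
    exact Ideal.sum_mem _ fun j _ => col_mem A Q f g j

end Pool.Agent.H21.Conn
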