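import Mathlib

set_option autoImplicit false

namespace Pool.Agent.H21.Conn

open MvPolynomial

variable {F σ : Type*} [Field F] [Fintype σ]

/-- the derivation `∑ ξ_i ∂_i` -/
noncomputable def vf (ξ : σ → MvPolynomial σ F) : Derivation F (MvPolynomial σ F) (MvPolynomial σ F) :=
  mkDerivation F ξ

/-- the directional derivative -/
noncomputable def dv (v : σ → F) : Derivation F (MvPolynomial σ F) (MvPolynomial σ F) :=
  vf (fun i => C (v i))

lemma vf_apply (ξ : σ → MvPolynomial σ F) (f : MvPolynomial σ F) :
    vf ξ f = ∑ i, ξ i * pderiv i f := by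
  classical
  induction f using MvPolynomial.induction_on with
  | C a => simp [vf]
  | add p q hp hq => simp only [map_add, hp, hq, mul_add, Finset.sum_add_distrib]
  | mul_X p j hp =>
    have h1 : ∑ i, ξ i * pderiv i (p * X j) = ∑ i, (ξ i * (p * pderiv i (X j)) +
        X j * (ξ i * pderiv i p)) := by
      refine Finset.sum_congr rfl fun i _ => ?_
      rw [Derivation.leibniz, smul_eq_mul, smul_eq_mul]
      ring
    rw [h1, Finset.sum_add_distrib, ← Finset.mul_sum, ← hp, Derivation.leibniz, smul_eq_mul,
      smul_eq_mul]
    congr 1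
    rw [Finset.sum_eq_single j]
    · rw [pderiv_X_self, vf, mkDerivation_X]
      ring
    · intro i _ hij
      rw [pderiv_X_of_ne (Ne.symm hij)]
      ring
    · simp

lemma dv_apply (v : σ → F) (f : MvPolynomial σ F) : dv v f = ∑ i, C (v i) * pderiv i f :=
  vf_apply _ _

/-- iterated directional derivatives, the head is applied first -/
noncomputable def iter : List (σ → F) → MvPolynomial σ F → MvPolynomial σ F
  | [], f => f
  | v :: vs, f => iter vs (dv v f)

omit [Fintype σ] in
lemma iter_nil (f : MvPolynomial σ F) : iter [] f = f := rfl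

omit [Fintype σ] in
lemma iter_cons (v : σ → F) (vs : List (σ → F)) (f : MvPolynomial σ F) :
    iter (v :: vs) f = iter vs (dv v f) := rfl

omit [Fintype σ] in
lemma iter_add (vs : List (σ → F)) (f g : MvPolynomial σ F) :
    iter vs (f + g) = iter vs f + iter vs g := by
  induction vs generalizing f g with
  | nil => rfl
  | cons v vs ih => simp [iter, ih]

omit [Fintype σ] in
lemma iter_zero (vs : List (σ → F)) : iter vs (0 : MvPolynomial σ F) = 0 := by
  induction vs with
  | nil => rfl
  | cons v vs ih => simp [iter, ih]

omit [Fintype σ] in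
lemma iter_sum {ι : Type*} (vs : List (σ → F)) (s : Finset ι) (f : ι → MvPolynomial σ F) :
    iter vs (∑ i ∈ s, f i) = ∑ i ∈ s, iter vs (f i) := by
  classical
  induction s using Finset.induction_on with
  | empty => simp [iter_zero]
  | insert a s ha ih => rw [Finset.sum_insert ha, Finset.sum_insert ha, iter_add, ih]

omit [Fintype σ] in
lemma iter_C_mul (vs : List (σ → F)) (c : F) (f : MvPolynomial σ F) :
    iter vs (C c * f) = C c * iter vs f := by
  induction vs generalizing f with
  | nil => rfl
  | cons v vs ih =>
    simp only [iter]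
    rw [← ih, Derivation.leibniz]
    simp

omit [Fintype σ] in
lemma dv_comm (v w : σ → F) (f : MvPolynomial σ F) : dv v (dv w f) = dv w (dv v f) := by
  have h : ⁅(dv v : Derivation F (MvPolynomial σ F) (MvPolynomial σ F)), dv w⁆ = 0 := by
    apply MvPolynomial.derivation_ext
    intro j
    rw [Derivation.commutator_apply]
    simp [dv, vf]
  have h2 := congrArg (fun D => D f) h
  simp only [Derivation.commutator_apply, Derivation.coe_zero, Pi.zero_apply] at h2
  exact sub_eq_zero.1 h2

omit [Fintype σ] in
lemma iter_dv (vs : List (σ → F)) (w : σ → F) (f : MvPolynomial σ F) :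
    iter vs (dv w f) = dv w (iter vs f) := by
  induction vs generalizing f with
  | nil => rw [iter_nil, iter_nil]
  | cons v vs ih => rw [iter_cons, iter_cons, dv_comm v w f, ih]

omit [Fintype σ] in
lemma lemA (y : σ → F) (ws : List (σ → F)) (g ξ : MvPolynomial σ F)
    (h : ∀ us : List (σ → F), us.length ≤ ws.length → eval y (iter us g) = 0) :
    eval y (iter ws (ξ * g)) = 0 := by
  induction ws generalizing g ξ with
  | nil =>
    have := h [] le_rfl
    simp only [iter] at this ⊢
    rw [map_mul, this, mul_zero]
  | cons v ws ih =>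
    simp only [iter]
    rw [Derivation.leibniz, iter_add, map_add, smul_eq_mul, smul_eq_mul,
      ih (dv v g) ξ, mul_comm g, ih g (dv v ξ), add_zero]
    · intro us hus
      exact h us (hus.trans (by simp))
    · intro us hus
      exact h (v :: us) (by simpa using hus)

omit [Fintype σ] in
lemma lemB (y : σ → F) (ws : List (σ → F)) (g ξ : MvPolynomial σ F)
    (h : ∀ us : List (σ → F), us.length < ws.length → eval y (iter us g) = 0) :
    eval y (iter ws (ξ * g)) = eval y ξ * eval y (iter ws g) := by
  induction ws generalizing g ξ with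
  | nil => simp [iter]
  | cons v ws ih =>
    simp only [iter]
    rw [Derivation.leibniz, iter_add, map_add, smul_eq_mul, smul_eq_mul,
      ih (dv v g) ξ, mul_comm g, lemA y ws g (dv v ξ), add_zero]
    · intro us hus
      exact h us (Nat.lt_succ_of_le hus)
    · intro us hus
      exact h (v :: us) (by simpa using hus)

lemma dv_single [DecidableEq σ] (i : σ) (f : MvPolynomial σ F) :
    dv (Pi.single i 1) f = pderiv i f := by
  rw [dv_apply, Finset.sum_eq_single i]
  · simp
  · intro j _ hj
    simp [Pi.single_eq_of_ne hj]
  · simp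

/-- evaluation of iterated derivatives of `ξ f` when the lower ones vanish -/
lemma iter_vf (y : σ → F) (ws : List (σ → F)) (f : MvPolynomial σ F)
    (ξ : σ → MvPolynomial σ F)
    (h : ∀ us : List (σ → F), us.length ≤ ws.length → eval y (iter us f) = 0) :
    eval y (iter ws (vf ξ f)) = eval y (iter ws (dv (fun i => eval y (ξ i)) f)) := by
  classical
  rw [vf_apply, dv_apply, iter_sum, iter_sum, map_sum, map_sum]
  refine Finset.sum_congr rfl fun i _ => ?_
  rw [lemB, iter_C_mul, map_mul, eval_C]
  intro us hus
  rw [← dv_single]
  exact h (Pi.single i 1 :: us) (by simpa using hus)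

/-- restriction to a line -/
noncomputable def line (y w : σ → F) : MvPolynomial σ F →ₐ[F] Polynomial F :=
  aeval (fun i => Polynomial.C (y i) + Polynomial.X * Polynomial.C (w i))

omit [Fintype σ] in
lemma eval_line (y w : σ → F) (h : MvPolynomial σ F) (s : F) :
    (line y w h).eval s = eval (y + s • w) h := by
  induction h using MvPolynomial.induction_on with
  | C a => simp [line]
  | add p q hp hq => simp [hp, hq]
  | mul_X p i hp =>
    rw [map_mul, map_mul, Polynomial.eval_mul, hp]
    congr 1
    simp [line]
    ring

omit [Fintype σ] in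
lemma derivative_line (y w : σ → F) (h : MvPolynomial σ F) :
    Polynomial.derivative (line y w h) = line y w (dv w h) := by
  induction h using MvPolynomial.induction_on with
  | C a => simp [line, dv, vf]
  | add p q hp hq => simp [hp, hq]
  | mul_X p i hp =>
    rw [map_mul, Polynomial.derivative_mul, hp, Derivation.leibniz, map_add, smul_eq_mul,
      smul_eq_mul, map_mul, map_mul]
    have h1 : line y w (X i) = Polynomial.C (y i) + Polynomial.X * Polynomial.C (w i) := by
      simp [line]
    have h2 : line y w (dv w (X i)) = Polynomial.C (w i) := by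
      simp [dv, vf, line]
    rw [h1, h2]
    simp
    ring

lemma lemC [Infinite F] (y w : σ → F) (h g : MvPolynomial σ F) (hg : eval y g ≠ 0)
    (hs : ∀ s : F, eval (y + s • w) g ≠ 0 → eval (y + s • w) h = 0) :
    eval y (dv w h) = 0 := by
  have h1 : line y w h * line y w g = 0 := by
    apply Polynomial.funext
    intro s
    rw [Polynomial.eval_mul, eval_line, eval_line, Polynomial.eval_zero]
    by_cases h0 : eval (y + s • w) g = 0
    · rw [h0, mul_zero]
    · rw [hs s h0, zero_mul]
  have h2 : line y w g ≠ 0 := by
    intro h0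
    apply hg
    have := eval_line y w g 0
    rw [h0] at this
    simpa using this.symm
  have h3 : line y w h = 0 := by
    rcases mul_eq_zero.1 h1 with h4 | h4
    · exact h4
    · exact absurd h4 h2
  have h4 := eval_line y w (dv w h) 0
  rw [← derivative_line, h3] at h4
  simpa using h4.symm

/-- all iterated derivatives vanish at a point: the polynomial is zero -/
lemma eq_zero_of_iter [CharZero F] (y : σ → F) (f : MvPolynomial σ F)
    (h : ∀ vs : List (σ → F), eval y (iter vs f) = 0) : f = 0 := by
  apply MvPolynomial.funext
  intro z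
  rw [map_zero]
  have h1 : ∀ k : ℕ, (Polynomial.derivative^[k] (line y (z - y) f)) =
      line y (z - y) (iter (List.replicate k (z - y)) f) := by
    intro k
    induction k with
    | zero => simp [iter]
    | succ k ih =>
      rw [Function.iterate_succ_apply', ih, derivative_line, ← iter_dv]
      rfl
  have h2 : line y (z - y) f = 0 := by
    ext k
    have h3 := Polynomial.coeff_iterate_derivative (p := line y (z - y) f) (k := k) 0
    rw [h1] at h3
    have h4 := eval_line y (z - y) (iter (List.replicate k (z - y)) f) 0
    rw [zero_smul, add_zero, h, ← Polynomial.coeff_zero_eq_eval_zero, h3, zero_add] at h4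
    rw [Polynomial.coeff_zero]
    rw [nsmul_eq_mul] at h4
    rcases mul_eq_zero.1 h4 with h5 | h5
    · exfalso
      have : (Nat.descFactorial k k) ≠ 0 := by
        rw [Nat.descFactorial_self]; exact Nat.factorial_ne_zero k
      exact this (by exact_mod_cast h5)
    · exact h5
  have h3 := eval_line y (z - y) f 1
  rw [h2] at h3
  simpa using h3.symm

/-- **Core.** An ideal vanishing on an affine subspace `y₀ + W` and stable under vector fields which
together with `W` span everything at `y₀` is zero. -/
theorem core [CharZero F] {ι : Type*} (I : Ideal (MvPolynomial σ F)) (W : Submodule F (σ → F))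
    (y₀ : σ → F) (hI : ∀ f ∈ I, ∀ w ∈ W, eval (y₀ + w) f = 0) (ξ : ι → σ → MvPolynomial σ F)
    (hξ : ∀ l, ∀ f ∈ I, vf (ξ l) f ∈ I)
    (hspan : Submodule.span F (Set.range fun l => fun i => eval y₀ (ξ l i)) ⊔ W = ⊤) :
    I = ⊥ := by
  classical
  -- vector fields `ζ i` with `ζ i (y₀) + w i = e i`
  have hex : ∀ i : σ, ∃ (ζ : σ → MvPolynomial σ F) (w : σ → F), w ∈ W ∧
      (∀ f ∈ I, vf ζ f ∈ I) ∧ (fun j => eval y₀ (ζ j)) + w = Pi.single i 1 := by
    intro i
    have hmem : (Pi.single i 1 : σ → F) ∈
        Submodule.span F (Set.range fun l => fun i => eval y₀ (ξ l i)) ⊔ W := by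
      rw [hspan]; trivial
    rw [Submodule.mem_sup] at hmem
    obtain ⟨a, ha, w, hw, haw⟩ := hmem
    have hex2 : ∃ ζ : σ → MvPolynomial σ F, (∀ f ∈ I, vf ζ f ∈ I) ∧ (fun j => eval y₀ (ζ j)) = a := by
      clear haw
      induction ha using Submodule.span_induction with
      | mem x hx =>
        obtain ⟨l, rfl⟩ := hx
        exact ⟨ξ l, hξ l, rfl⟩
      | zero =>
        refine ⟨0, ?_, ?_⟩
        · intro f _
          rw [vf_apply]
          simp
        · ext j; simp
      | add x y _ _ hx hy =>
        obtain ⟨ζ, h1, h2⟩ := hx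
        obtain ⟨ζ', h1', h2'⟩ := hy
        refine ⟨ζ + ζ', ?_, ?_⟩
        · intro f hf
          have : vf (ζ + ζ') f = vf ζ f + vf ζ' f := by
            simp only [vf_apply, Pi.add_apply, add_mul, Finset.sum_add_distrib]
          rw [this]
          exact I.add_mem (h1 f hf) (h1' f hf)
        · rw [← h2, ← h2']
          ext j; simp
      | smul c x _ hx =>
        obtain ⟨ζ, h1, h2⟩ := hx
        refine ⟨fun j => C c * ζ j, ?_, ?_⟩
        · intro f hf
          have : vf (fun j => C c * ζ j) f = C c * vf ζ f := by
            simp only [vf_apply, Finset.mul_sum, mul_assoc]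
          rw [this]
          exact I.mul_mem_left _ (h1 f hf)
        · rw [← h2]
          ext j; simp
    obtain ⟨ζ, h1, h2⟩ := hex2
    exact ⟨ζ, w, hw, h1, by rw [h2]; exact haw⟩
  choose ζ w hw hζ he using hex
  set M : Matrix σ σ (MvPolynomial σ F) := Matrix.of fun i j => ζ i j + C (w i j) with hM
  set g := M.det with hg
  have hMy : ∀ y : σ → F, M.map (eval y) = Matrix.of fun i j => eval y (ζ i j) + w i j := by
    intro y
    ext i j
    simp [hM]
  have hgy : ∀ y : σ → F, eval y g = (M.map (eval y)).det := by
    intro y
    rw [hg, RingHom.map_det]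
    rfl
  have hg0 : eval y₀ g ≠ 0 := by
    rw [hgy, hMy]
    have : (Matrix.of fun i j => eval y₀ (ζ i j) + w i j) = (1 : Matrix σ σ F) := by
      ext i j
      have := congrFun (he i) j
      simp only [Pi.add_apply] at this
      rw [Matrix.of_apply, this, Matrix.one_apply]
      by_cases hij : i = j
      · subst hij; simp
      · rw [Pi.single_eq_of_ne (Ne.symm hij), if_neg hij]
    rw [this, Matrix.det_one]
    exact one_ne_zero
  -- at points where `g ≠ 0` the vectors span
  have hcomb : ∀ y : σ → F, eval y g ≠ 0 → ∀ v : σ → F, ∃ c : σ → F,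
      v = ∑ i, c i • ((fun j => eval y (ζ i j)) + w i) := by
    intro y hy v
    have hdet : (M.map (eval y)).det ≠ 0 := by rw [← hgy]; exact hy
    have hu : IsUnit (M.map (eval y)).det := isUnit_iff_ne_zero.2 hdet
    refine ⟨Matrix.vecMul v (M.map (eval y))⁻¹, ?_⟩
    have h1 : Matrix.vecMul (Matrix.vecMul v (M.map (eval y))⁻¹) (M.map (eval y)) = v := by
      rw [Matrix.vecMul_vecMul, Matrix.nonsing_inv_mul _ hu, Matrix.vecMul_one]
    conv_lhs => rw [← h1]
    ext j
    rw [Matrix.vecMul, dotProduct, Finset.sum_apply]
    refine Finset.sum_congr rfl fun i _ => ?_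
    rw [hMy]
    simp
  -- induction on the order
  have main : ∀ k : ℕ, ∀ f ∈ I, ∀ vs : List (σ → F), vs.length ≤ k → ∀ u ∈ W,
      eval (y₀ + u) g ≠ 0 → eval (y₀ + u) (iter vs f) = 0 := by
    intro k
    induction k with
    | zero =>
      intro f hf vs hvs u hu _
      have : vs = [] := List.length_eq_zero_iff.1 (Nat.le_zero.1 hvs)
      subst this
      exact hI f hf u hu
    | succ k ih =>
      intro f hf vs hvs u hu hgu
      rcases vs with _ | ⟨v, ws⟩
      · exact hI f hf u hu
      have hws : ws.length ≤ k := by simpa using hvs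
      by_cases hlt : ws.length < k
      · exact ih f hf (v :: ws) (by simpa using hlt) u hu hgu
      have hwk : ws.length = k := by omega
      obtain ⟨c, hc⟩ := hcomb (y₀ + u) hgu v
      have hlin : iter (v :: ws) f =
          ∑ i, C (c i) * iter ws (dv ((fun j => eval (y₀ + u) (ζ i j)) + w i) f) := by
        have h1 : dv v f = ∑ i, C (c i) * dv ((fun j => eval (y₀ + u) (ζ i j)) + w i) f := by
          simp only [dv_apply, Finset.mul_sum]
          rw [Finset.sum_comm]
          refine Finset.sum_congr rfl fun j _ => ?_
          rw [← Finset.sum_congr rfl (fun i _ => mul_assoc (C (c i)) _ (pderiv j f)),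
            ← Finset.sum_mul]
          congr 1
          have h2 := congrFun hc j
          rw [Finset.sum_apply] at h2
          rw [h2, map_sum]
          refine Finset.sum_congr rfl fun i _ => ?_
          simp
        simp only [iter]
        rw [h1, iter_sum]
        refine Finset.sum_congr rfl fun i _ => ?_
        rw [iter_C_mul]
      rw [hlin, map_sum]
      refine Finset.sum_eq_zero fun i _ => ?_
      rw [map_mul]
      have h3 : dv ((fun j => eval (y₀ + u) (ζ i j)) + w i) f =
          dv (fun j => eval (y₀ + u) (ζ i j)) f + dv (w i) f := by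
        simp only [dv_apply, Pi.add_apply, map_add, add_mul, Finset.sum_add_distrib]
      rw [h3, iter_add, map_add]
      have h4 : eval (y₀ + u) (iter ws (dv (fun j => eval (y₀ + u) (ζ i j)) f)) = 0 := by
        rw [← iter_vf]
        · exact ih _ (hζ i f hf) ws hws u hu hgu
        · intro us hus
          exact ih f hf us (hus.trans hws) u hu hgu
      have h5 : eval (y₀ + u) (iter ws (dv (w i) f)) = 0 := by
        rw [iter_dv]
        apply lemC (y₀ + u) (w i) _ g hgu
        intro s hs
        have e : y₀ + u + s • w i = y₀ + (u + s • w i) := by rw [add_assoc]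
        rw [e] at hs ⊢
        exact ih f hf ws hws _ (W.add_mem hu (W.smul_mem s (hw i))) hs
      rw [h4, h5]
      simp
  rw [eq_bot_iff]
  intro f hf
  rw [Ideal.mem_bot]
  apply eq_zero_of_iter y₀
  intro vs
  have := main vs.length f hf vs le_rfl 0 W.zero_mem (by simpa using hg0)
  simpa using this

end Pool.Agent.H21.Conn
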